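import Mathlib
import Pool.Agent.R865.SC.Coho
import Pool.Agent.R865.SC.Classical

/-!
# MP_41152b_al: Cohen–Macaulay relative cohomology does not force collapse at `E_2`

A full (negative) answer to Q1.  The Lie superalgebra is `ℂ z ⊕ ℂ x` with `z` even and central,
`x` odd and `[x, x] = 2 z`, the subalgebra of the even part is `0`.

All definitions are in `Pool.Agent.R865.SC.Defs`: Lie superalgebras, classical Lie superalgebras,
relative cochains and the Koszul-sign differential, relative cohomology, Cohen–Macaulayness,
the filtration by the number of even arguments and the vanishing of the differentials `d_r`.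
-/

set_option autoImplicit false

namespace Pool.Agent.Results.MP_41152b_al.NoCollapse
open Pool.Agent.R865.SC

/-- There are a classical Lie superalgebra `L` and a subalgebra `a` of its even part such that
`H^0(L, a; ℂ)` and `H^1(L, a; ℂ)` are one-dimensional, `H^n(L, a; ℂ) = 0` for `n ≥ 2`, the relative
cohomology is Cohen–Macaulay, but the differential `d_2 : E_2^{0,1} → E_2^{2,0}` of the spectral
sequence of `a ≤ L_0 ≤ L` is not zero; so the spectral sequence does not collapse at `E_2`. -/
theorem result :
    ∃ (V : Type) (_ : AddCommGroup V) (_ : Module ℂ V) (L : LieSuperalgebra V)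
      (a : Submodule ℂ V),
      IsClassical L ∧ IsEvenSubalgebra L a ∧
      (∀ n, n < 2 → Module.finrank ℂ (H L a n) = 1) ∧
      (∀ n, 2 ≤ n → Subsingleton (H L a n)) ∧
      CohomologyIsCohenMacaulay L a ∧
      ¬ DifferentialVanishes L a 2 0 1 ∧
      ¬ CollapsesAtE2 L a := by
  refine ⟨ℂ × ℂ, inferInstance, inferInstance, Ex, ⊥, Ex_classical, ⟨bot_le, ?_⟩, H_finrank,
    H_subsingleton, Ex_CM, Ex_not_vanish, fun h => Ex_not_vanish (h 2 le_rfl 0 1)⟩
  intro x hx y _
  rw [(Submodule.mem_bot ℂ).1 hx]
  simp

end Pool.Agent.Results.MP_41152b_al.NoCollapse
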